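import Mathlib

/-!
# The high-dimensional limit of the frog model critical curve is not `g`

Frog model `FM(d, π_{w,α})` on `ℤ^d`.  We prove that for every `α ∈ (0,1)` with
`√(1-α²) < 2/3` there is `w₀ < g(α)`, not depending on `d`, such that the model is
transient for every `w ∈ [w₀, 1]` and every `d ≥ 2`.
-/

open MeasureTheory ProbabilityTheory Filter Topology
open scoped ENNReal

namespace Pool.Agent.Results.MP_964988_pr.FrogCurveGap

/-- Sites of `ℤ^d`. -/
abbrev Site (d : ℕ) := Fin d → ℤ

/-- A nearest-neighbour step: the coordinate that changes and the sign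
(`true` is `+`, `false` is `-`). -/
abbrev Step (d : ℕ) := Fin d × Bool

/-- The lattice vector of a step. -/
def vec {d : ℕ} (s : Step d) : Site d := Pi.single s.1 (if s.2 then 1 else -1)

/-- The probability `π_{w,α}` of a step; coordinate `0` of `Fin d` plays the role of `e₁`. -/
noncomputable def stepProb (d : ℕ) (w α : ℝ) (s : Step d) : ℝ :=
  if (s.1 : ℕ) = 0 then (if s.2 then w * (1 + α) / 2 else w * (1 - α) / 2)
  else (1 - w) / (2 * ((d : ℝ) - 1))

/-- The step law `π_{w,α}` as a measure on steps. -/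
noncomputable def stepLaw (d : ℕ) (w α : ℝ) : Measure (Step d) :=
  ∑ s : Step d, ENNReal.ofReal (stepProb d w α s) • Measure.dirac s

/-- An environment: `ω (x, i)` is the `(i+1)`-st step of the frog that starts at `x`. -/
abbrev Env (d : ℕ) := Site d × ℕ → Step d

/-- All steps of all frogs are independent with law `π_{w,α}`. -/
noncomputable def frogLaw (d : ℕ) (w α : ℝ) : Measure (Env d) :=
  Measure.infinitePi (fun _ => stepLaw d w α)

/-- Position of the frog of site `x` after `k` of its own steps. -/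
def pos {d : ℕ} (ω : Env d) (x : Site d) (k : ℕ) : Site d :=
  x + ∑ i ∈ Finset.range k, vec (ω (x, i))

open Classical in
/-- `wake ω n x = some s`: at time `n` the frog of `x` is active, and it became active at
time `s`; `wake ω n x = none`: at time `n` the frog of `x` still sleeps.  At time `0` only the
frog of the origin is active; a sleeping frog becomes active at time `n + 1` if and only if
some active frog is at its site at time `n + 1`.  A frog activated at time `s` has made
`m - s` steps by time `m`. -/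
noncomputable def wake {d : ℕ} (ω : Env d) : ℕ → Site d → Option ℕ
  | 0, x => if x = 0 then some 0 else none
  | n + 1, x =>
      match wake ω n x with
      | some s => some s
      | none => if ∃ y s, wake ω n y = some s ∧ pos ω y (n + 1 - s) = x then some (n + 1)
                else none

/-- Some active frog is at the origin at time `n`. -/
def OriginVisited {d : ℕ} (ω : Env d) (n : ℕ) : Prop :=
  ∃ y s, wake ω n y = some s ∧ pos ω y (n - s) = 0

/-- Recurrence: almost surely the origin is visited at infinitely many times. -/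
def Recurrent (d : ℕ) (w α : ℝ) : Prop :=
  ∀ᵐ ω ∂(frogLaw d w α), {n | OriginVisited ω n}.Infinite

/-- Transience is the negation of recurrence. -/
def Transient (d : ℕ) (w α : ℝ) : Prop := ¬ Recurrent d w α

/-- `f` is a critical curve for dimension `d`. -/
def IsCriticalCurve (d : ℕ) (f : ℝ → ℝ) : Prop :=
  (∀ α ∈ Set.Icc (0 : ℝ) 1, f α ∈ Set.Icc (0 : ℝ) 1) ∧
  AntitoneOn f (Set.Icc (0 : ℝ) 1) ∧
  ∀ w ∈ Set.Icc (0 : ℝ) 1, ∀ α ∈ Set.Icc (0 : ℝ) 1,
    (w < f α → Recurrent d w α) ∧ (f α < w → Transient d w α)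

/-- The critical curve `g` of the binary branching random walk, with `g(0) = 1`. -/
noncomputable def g (α : ℝ) : ℝ :=
  if α = 0 then 1 else min 1 (1 / (2 * (1 - Real.sqrt (1 - α ^ 2))))

/-! ## Chains of frogs encoded as words (newest letter first) -/

section Words

variable {d : ℕ}

/-- state of a word: current site, frog followed, number of its steps already made -/
def st : List (Step d × Bool) → Site d × (Site d × ℕ)
  | [] => (0, (0, 0))
  | a :: l =>
      let y := (st l).1 + vec a.1
      if a.2 then (y, (y, 0)) else (y, ((st l).2.1, (st l).2.2 + 1))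

/-- the environment follows the word -/
def fol (ω : Env d) : List (Step d × Bool) → Prop
  | [] => True
  | a :: l => fol ω l ∧ ω (st l).2 = a.1

/-- indices used by a word -/
def idx : List (Step d × Bool) → Finset (Site d × ℕ)
  | [] => ∅
  | _ :: l => insert (st l).2 (idx l)

/-- prescribed value at an index -/
def val : List (Step d × Bool) → (Site d × ℕ) → Option (Step d)
  | [] => fun _ => none
  | a :: l => Function.update (val l) (st l).2 (some a.1)

/-- the step `s` immediately undoes the last step of `l`, and is in direction `± e₁` -/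
def undo (s : Step d) : List (Step d × Bool) → Prop
  | [] => False
  | b :: _ => (s.1 : ℕ) = 0 ∧ b.1.1 = s.1 ∧ b.1.2 = !s.2

/-- admissible words -/
def good : List (Step d × Bool) → Prop
  | [] => True
  | a :: l => good l ∧ (a.2 = true → ¬ undo a.1 l) ∧ (st l).2 ∉ idx l

/-- weight of a word -/
noncomputable def wt (w α : ℝ) : List (Step d × Bool) → ℝ
  | [] => 1
  | a :: l => stepProb d w α a.1 * wt w α l

end Words

/-! ## Deterministic part: every visit to the origin comes from an admissible word -/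

section Det

variable {d : ℕ}

lemma wake_succ_of_some (ω : Env d) {n : ℕ} {x : Site d} {s : ℕ} (h : wake ω n x = some s) :
    wake ω (n + 1) x = some s := by
  simp [wake, h]

lemma wake_mono (ω : Env d) {n m : ℕ} {x : Site d} {s : ℕ} (h : wake ω n x = some s)
    (hnm : n ≤ m) : wake ω m x = some s := by
  induction m, hnm using Nat.le_induction with
  | base => exact h
  | succ k _ ih => exact wake_succ_of_some ω ih

lemma wake_succ_none (ω : Env d) {n : ℕ} {x : Site d} {s : ℕ}
    (h0 : wake ω n x = none) (h : wake ω (n + 1) x = some s) :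
    s = n + 1 ∧ ∃ y s, wake ω n y = some s ∧ pos ω y (n + 1 - s) = x := by
  simp only [wake, h0] at h
  split_ifs at h with hc
  exact ⟨by simpa using h.symm, hc⟩

lemma wake_le (ω : Env d) {n : ℕ} {x : Site d} {s : ℕ} (h : wake ω n x = some s) :
    s ≤ n ∧ wake ω s x = some s := by
  induction n with
  | zero =>
    simp only [wake] at h
    split_ifs at h with hx
    have hs : s = 0 := by simpa using h.symm
    subst hs
    exact ⟨le_rfl, by simp [wake, hx]⟩
  | succ n ih =>
    rcases hn : wake ω n x with _ | s'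
    · obtain ⟨hs, -⟩ := wake_succ_none ω hn h
      subst hs
      exact ⟨le_rfl, h⟩
    · have h' := wake_succ_of_some ω hn
      rw [h] at h'
      have : s = s' := by simpa using h'
      subst this
      obtain ⟨h1, h2⟩ := ih hn
      exact ⟨by omega, h2⟩

lemma pos_zero (ω : Env d) (x : Site d) : pos ω x 0 = x := by simp [pos]

lemma pos_succ (ω : Env d) (x : Site d) (k : ℕ) :
    pos ω x (k + 1) = pos ω x k + vec (ω (x, k)) := by
  simp [pos, Finset.sum_range_succ, add_assoc]

/-- a visited site is awake -/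
lemma awake_of_visited (ω : Env d) {n : ℕ} {y : Site d} {s : ℕ} (h : wake ω n y = some s) :
    ∃ s', wake ω n (pos ω y (n - s)) = some s' := by
  cases n with
  | zero =>
    have hs : s = 0 := by have := (wake_le ω h).1; omega
    subst hs
    refine ⟨0, ?_⟩
    simpa [pos_zero] using h
  | succ n =>
    rcases hn : wake ω n (pos ω y (n + 1 - s)) with _ | s'
    · rcases hy : wake ω n y with _ | s''
      · have hs := (wake_succ_none ω hy h).1
        subst hs
        refine ⟨n + 1, ?_⟩
        simpa [pos_zero] using h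
      · have h' := wake_succ_of_some ω hy
        rw [h] at h'
        have : s = s'' := by simpa using h'
        subst this
        refine ⟨n + 1, ?_⟩
        simp only [wake, hn]
        rw [if_pos ⟨y, s, hy, rfl⟩]
    · exact ⟨s', wake_succ_of_some ω hn⟩

/-- A word realised by the dynamics. -/
structure Realised (ω : Env d) (l : List (Step d × Bool)) : Prop where
  hfol : fol ω l
  hgood : good l
  hidx : ∀ i ∈ idx l, ∃ t, wake ω t i.1 = some t ∧ t + i.2 < l.length
  hcur : ∃ t, wake ω t (st l).2.1 = some t ∧ t + (st l).2.2 = l.length ∧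
    pos ω (st l).2.1 (st l).2.2 = (st l).1
  hprev : ∀ b l', l = b :: l' → ∃ t', wake ω l'.length (st l').1 = some t'

lemma wake_unique (ω : Env d) {x : Site d} {s t : ℕ} (hs : wake ω s x = some s)
    (ht : wake ω t x = some t) : s = t := by
  rcases le_total s t with h | h
  · have := wake_mono ω hs h
    rw [ht] at this
    simpa using this.symm
  · have := wake_mono ω ht h
    rw [hs] at this
    simpa using this

lemma vec_undo (a : Step d) (b : Step d) (h1 : b.1 = a.1) (h2 : b.2 = !a.2) :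
    vec b + vec a = 0 := by
  rcases a with ⟨j, s⟩
  rcases b with ⟨j', s'⟩
  simp only at h1 h2
  subst h1 h2
  unfold vec
  cases s <;> simp [← Pi.single_add]

lemma st_fst_cons (a : Step d × Bool) (l : List (Step d × Bool)) :
    (st (a :: l)).1 = (st l).1 + vec a.1 := by
  simp only [st]
  split_ifs <;> rfl

lemma Realised.step (ω : Env d) {l : List (Step d × Bool)} (h : Realised ω l) (b : Bool)
    (hb : b = true → wake ω l.length ((st l).1 + vec (ω (st l).2)) = none ∧
      wake ω (l.length + 1) ((st l).1 + vec (ω (st l).2)) = some (l.length + 1)) :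
    Realised ω ((ω (st l).2, b) :: l) := by
  obtain ⟨t, ht1, ht2, ht3⟩ := h.hcur
  have hpos : pos ω (st l).2.1 ((st l).2.2 + 1) = (st l).1 + vec (ω (st l).2) := by
    rw [pos_succ, ht3]
  have hact : wake ω l.length (st l).2.1 = some t := wake_mono ω ht1 (by omega)
  have hvis : ∃ t', wake ω l.length (st l).1 = some t' := by
    obtain ⟨s', hs'⟩ := awake_of_visited ω hact
    refine ⟨s', ?_⟩
    have : l.length - t = (st l).2.2 := by omega
    rw [this, ht3] at hs'
    exact hs'
  refine ⟨?_, ?_, ?_, ?_, ?_⟩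
  · exact ⟨h.hfol, rfl⟩
  · refine ⟨h.hgood, ?_, ?_⟩
    · intro hbt hundo
      simp only at hbt
      obtain ⟨hb1, hb2⟩ := hb hbt
      cases l with
      | nil => exact hundo
      | cons c l' =>
        obtain ⟨-, h1, h2⟩ := hundo
        have hz : vec c.1 + vec (ω (st (c :: l')).2) = 0 := vec_undo _ _ h1 h2
        have hx : (st (c :: l')).1 + vec (ω (st (c :: l')).2) = (st l').1 := by
          rw [st_fst_cons, add_assoc, hz, add_zero]
        obtain ⟨t', ht'⟩ := h.hprev c l' rfl
        rw [hx] at hb1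
        have := wake_mono ω ht' (show l'.length ≤ (c :: l').length by simp)
        rw [hb1] at this
        simp at this
    · intro hmem
      obtain ⟨t2, h1, h2⟩ := h.hidx _ hmem
      have := wake_unique ω h1 ht1
      omega
  · intro i hi
    simp only [idx, Finset.mem_insert] at hi
    rcases hi with rfl | hi
    · exact ⟨t, ht1, by simp; omega⟩
    · obtain ⟨t2, h1, h2⟩ := h.hidx i hi
      exact ⟨t2, h1, by simp; omega⟩
  · cases b with
    | false =>
      refine ⟨t, by simpa [st] using ht1, by simp [st]; omega, ?_⟩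
      simp only [st, Bool.false_eq_true, if_false]
      exact hpos
    | true =>
      obtain ⟨hb1, hb2⟩ := hb rfl
      refine ⟨l.length + 1, by simpa [st] using hb2, by simp [st], ?_⟩
      simp [st, pos_zero]
  · intro c l' hcl
    have : l' = l := by simpa using (List.cons.inj hcl).2.symm
    subst this
    exact hvis

lemma exists_word (ω : Env d) : ∀ (n : ℕ) (y : Site d) (s : ℕ), wake ω n y = some s →
    ∃ l, l.length = n ∧ Realised ω l ∧ (st l).2 = (y, n - s) := by
  intro n
  induction n with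
  | zero =>
    intro y s h
    have hs : s = 0 := by have := (wake_le ω h).1; omega
    have hy : y = 0 := by
      by_contra hne
      simp [wake, hne] at h
    subst hs hy
    refine ⟨[], rfl, ⟨trivial, trivial, by simp [idx], ⟨0, ?_, ?_, ?_⟩, by simp⟩, rfl⟩
    · simp [wake, st]
    · simp [st]
    · simp [st, pos_zero]
  | succ n ih =>
    intro y s h
    rcases hn : wake ω n y with _ | s'
    · obtain ⟨hs, z, s2, hz, hpos⟩ := wake_succ_none ω hn h
      subst hs
      obtain ⟨l, hl, hR, hst⟩ := ih z s2 hz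
      have hle := (wake_le ω hz).1
      obtain ⟨t, ht1, ht2, ht3⟩ := hR.hcur
      have hy : (st l).1 + vec (ω (st l).2) = y := by
        rw [← ht3, ← pos_succ, hst, ← hpos]
        congr 1
        simp only
        omega
      refine ⟨(ω (st l).2, true) :: l, by simp [hl], hR.step ω true ?_, ?_⟩
      · intro _
        rw [hy, hl]
        exact ⟨hn, h⟩
      · simp [st, hy]
    · have h' := wake_succ_of_some ω hn
      rw [h] at h'
      have : s = s' := by simpa using h'
      subst this
      obtain ⟨l, hl, hR, hst⟩ := ih y s hn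
      have hle := (wake_le ω hn).1
      refine ⟨(ω (st l).2, false) :: l, by simp [hl], hR.step ω false (by simp), ?_⟩
      simp only [st, Bool.false_eq_true, if_false, hst]
      congr 1
      omega

lemma exists_word_of_visit (ω : Env d) (n : ℕ) (h : OriginVisited ω n) :
    ∃ l, l.length = n ∧ good l ∧ fol ω l ∧ (st l).1 = 0 := by
  obtain ⟨y, s, hy, hpos⟩ := h
  obtain ⟨l, hl, hR, hst⟩ := exists_word ω n y s hy
  refine ⟨l, hl, hR.hgood, hR.hfol, ?_⟩
  obtain ⟨t, ht1, ht2, ht3⟩ := hR.hcur
  rw [← ht3, hst]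
  exact hpos

end Det

/-! ## Probability of following a word -/

section Prob

lemma sum_step {m : ℕ} {M : Type*} [AddCommMonoid M] (F : Step (m + 2) → M) :
    ∑ s : Step (m + 2), F s =
      (F (0, true) + F (0, false)) + ∑ i : Fin (m + 1), (F (i.succ, true) + F (i.succ, false)) := by
  rw [Fintype.sum_prod_type, Fin.sum_univ_succ]
  simp

lemma stepProb_zero_true (m : ℕ) (w α : ℝ) :
    stepProb (m + 2) w α (0, true) = w * (1 + α) / 2 := by simp [stepProb]

lemma stepProb_zero_false (m : ℕ) (w α : ℝ) :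
    stepProb (m + 2) w α (0, false) = w * (1 - α) / 2 := by simp [stepProb]

lemma stepProb_succ (m : ℕ) (w α : ℝ) (i : Fin (m + 1)) (b : Bool) :
    stepProb (m + 2) w α (i.succ, b) = (1 - w) / (2 * ((m : ℝ) + 1)) := by
  simp only [stepProb, Fin.val_succ, Nat.add_eq_zero_iff, one_ne_zero, and_false, if_false]
  congr 1
  push_cast
  ring

lemma stepProb_nonneg (m : ℕ) {w α : ℝ} (hw0 : 0 ≤ w) (hw1 : w ≤ 1) (hα0 : 0 ≤ α) (hα1 : α ≤ 1)
    (s : Step (m + 2)) : 0 ≤ stepProb (m + 2) w α s := by
  unfold stepProb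
  have h1 : 0 ≤ w * (1 + α) / 2 := by positivity
  have h2 : 0 ≤ w * (1 - α) / 2 := by
    have : 0 ≤ 1 - α := by linarith
    positivity
  have h3 : 0 ≤ (1 - w) / (2 * (((m + 2 : ℕ) : ℝ) - 1)) := by
    have : 0 ≤ 1 - w := by linarith
    have h4 : 0 ≤ ((m + 2 : ℕ) : ℝ) - 1 := by
      push_cast
      have : (0 : ℝ) ≤ m := Nat.cast_nonneg m
      linarith
    positivity
  split_ifs <;> assumption

lemma stepProb_sum (m : ℕ) (w α : ℝ) : ∑ s : Step (m + 2), stepProb (m + 2) w α s = 1 := by
  rw [sum_step]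
  simp only [stepProb_zero_true, stepProb_zero_false, stepProb_succ, Finset.sum_const,
    Finset.card_univ, Fintype.card_fin, nsmul_eq_mul]
  have : ((m : ℝ) + 1) ≠ 0 := by positivity
  push_cast
  field_simp
  ring

lemma stepLaw_apply (d : ℕ) (w α : ℝ) (s : Step d) :
    stepLaw d w α {s} = ENNReal.ofReal (stepProb d w α s) := by
  simp only [stepLaw, Measure.coe_finsetSum, Finset.sum_apply, Measure.smul_apply, smul_eq_mul]
  rw [Finset.sum_eq_single s]
  · simp
  · intro b _ hb
    simp [hb]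
  · simp

lemma stepLaw_prob (m : ℕ) {w α : ℝ} (hw0 : 0 ≤ w) (hw1 : w ≤ 1) (hα0 : 0 ≤ α) (hα1 : α ≤ 1) :
    IsProbabilityMeasure (stepLaw (m + 2) w α) := by
  constructor
  simp only [stepLaw, Measure.coe_finsetSum, Finset.sum_apply, Measure.smul_apply, smul_eq_mul,
    measure_univ, mul_one]
  rw [← ENNReal.ofReal_sum_of_nonneg
    (fun s _ => stepProb_nonneg m hw0 hw1 hα0 hα1 s), stepProb_sum, ENNReal.ofReal_one]

variable {d : ℕ}

lemma fol_val {ω : Env d} : ∀ {l : List (Step d × Bool)}, good l → fol ω l →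
    ∀ i ∈ idx l, val l i = some (ω i) := by
  intro l
  induction l with
  | nil => intro _ _ i hi; simp [idx] at hi
  | cons a l ih =>
    intro hg hf i hi
    obtain ⟨hg1, -, hg3⟩ := hg
    obtain ⟨hf1, hf2⟩ := hf
    simp only [idx, Finset.mem_insert] at hi
    by_cases h : i = (st l).2
    · subst h
      simp [val, hf2]
    · rcases hi with hi | hi
      · exact absurd hi h
      · simp only [val, Function.update_of_ne h]
        exact ih hg1 hf1 i hi

lemma prod_val {w α : ℝ} (hn : ∀ s : Step d, 0 ≤ stepProb d w α s) :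
    ∀ {l : List (Step d × Bool)}, good l →
    ∏ i ∈ idx l, stepLaw d w α {c | val l i = some c} = ENNReal.ofReal (wt w α l) := by
  intro l
  induction l with
  | nil => intro _; simp [idx, wt]
  | cons a l ih =>
    intro hg
    obtain ⟨hg1, -, hg3⟩ := hg
    rw [idx, Finset.prod_insert hg3, wt, ENNReal.ofReal_mul (hn _), ← ih hg1]
    congr 1
    · have : {c | val (a :: l) (st l).2 = some c} = {a.1} := by
        ext c
        simp [val, eq_comm]
      rw [this, stepLaw_apply]
    · apply Finset.prod_congr rfl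
      intro i hi
      have hne : i ≠ (st l).2 := fun h => hg3 (h ▸ hi)
      simp only [val, Function.update_of_ne hne]

lemma wt_nonneg {w α : ℝ} (hn : ∀ s : Step d, 0 ≤ stepProb d w α s) (l : List (Step d × Bool)) :
    0 ≤ wt w α l := by
  induction l with
  | nil => simp [wt]
  | cons a l ih => exact mul_nonneg (hn _) ih

lemma frogLaw_fol_le (m : ℕ) {w α : ℝ} (hw0 : 0 ≤ w) (hw1 : w ≤ 1) (hα0 : 0 ≤ α) (hα1 : α ≤ 1)
    {l : List (Step (m + 2) × Bool)} (hg : good l) :
    frogLaw (m + 2) w α {ω | fol ω l} ≤ ENNReal.ofReal (wt w α l) := by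
  have := stepLaw_prob m hw0 hw1 hα0 hα1
  rw [← prod_val (stepProb_nonneg m hw0 hw1 hα0 hα1) hg]
  have hsub : {ω : Env (m + 2) | fol ω l} ⊆
      Set.pi (idx l : Set (Site (m + 2) × ℕ)) (fun i => {c | val l i = some c}) := by
    intro ω hω i hi
    exact fol_val hg hω i hi
  refine (measure_mono hsub).trans (le_of_eq ?_)
  unfold frogLaw
  rw [Measure.infinitePi_pi]
  intro i _
  exact MeasurableSet.of_discrete

end Prob

/-! ## Summation over words -/

section Sum

variable {A : Type} [Fintype A]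

/-- sum over words of length `n` -/
noncomputable def S : ℕ → (List A → ℝ≥0∞) → ℝ≥0∞
  | 0, f => f []
  | n + 1, f => S n (fun l => ∑ a, f (a :: l))

lemma S_mono (n : ℕ) : ∀ {f g : List A → ℝ≥0∞}, (∀ l, f l ≤ g l) → S n f ≤ S n g := by
  induction n with
  | zero => intro f g h; exact h []
  | succ n ih =>
    intro f g h
    exact ih (fun l => Finset.sum_le_sum (fun a _ => h _))

lemma S_contract (c : ℝ≥0∞) (n : ℕ) : ∀ {f : List A → ℝ≥0∞},
    (∀ l, ∑ a, f (a :: l) ≤ c * f l) → S n f ≤ c ^ n * f [] := by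
  induction n with
  | zero => intro f _; simp [S]
  | succ n ih =>
    intro f h
    have h1 : S (n + 1) f = S n (fun l => ∑ a, f (a :: l)) := rfl
    rw [h1]
    refine (ih (f := fun l => ∑ a, f (a :: l)) ?_).trans ?_
    · intro l
      rw [Finset.mul_sum]
      exact Finset.sum_le_sum (fun a _ => h _)
    · calc c ^ n * ∑ a, f [a] ≤ c ^ n * (c * f []) := by gcongr; exact h []
        _ = c ^ (n + 1) * f [] := by ring

lemma measure_union_words {Ω : Type*} [MeasurableSpace Ω] (μ : Measure Ω) (n : ℕ) :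
    ∀ (F : List A → Set Ω), μ {ω | ∃ l, l.length = n ∧ ω ∈ F l} ≤ S n (fun l => μ (F l)) := by
  induction n with
  | zero =>
    intro F
    refine (measure_mono ?_).trans (le_refl (μ (F [])))
    rintro ω ⟨l, hl, hω⟩
    rw [List.length_eq_zero_iff] at hl
    subst hl
    exact hω
  | succ n ih =>
    intro F
    have hsub : {ω | ∃ l : List A, l.length = n + 1 ∧ ω ∈ F l} ⊆
        {ω | ∃ l : List A, l.length = n ∧ ω ∈ ⋃ a, F (a :: l)} := by
      rintro ω ⟨l, hl, hω⟩
      cases l with
      | nil => simp at hl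
      | cons a l =>
        exact ⟨l, by simpa using hl, Set.mem_iUnion.2 ⟨a, hω⟩⟩
    refine (measure_mono hsub).trans ((ih _).trans ?_)
    exact S_mono n (fun l => measure_iUnion_fintype_le μ _)

end Sum

/-! ## The first moment bound -/

section Bound

variable {m : ℕ}

/-- weight attached to the type of a step -/
noncomputable def hs (h0 h1 : ℝ) (s : Step (m + 2)) : ℝ := if (s.1 : ℕ) = 0 then h1 else h0

/-- weight attached to the type of the last step of a word -/
noncomputable def hl (h0 h1 : ℝ) : List (Step (m + 2) × Bool) → ℝ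
  | [] => h0
  | b :: _ => hs h0 h1 b.1

open Classical in
/-- number of admissible flags -/
noncomputable def mult (s : Step (m + 2)) (l : List (Step (m + 2) × Bool)) : ℝ :=
  if undo s l then 1 else 2

lemma mult_nonneg (s : Step (m + 2)) (l : List (Step (m + 2) × Bool)) : 0 ≤ mult s l := by
  unfold mult; split_ifs <;> norm_num

lemma mult_succ (i : Fin (m + 1)) (b : Bool) (l : List (Step (m + 2) × Bool)) :
    mult (i.succ, b) l = 2 := by
  unfold mult
  rw [if_neg]
  cases l with
  | nil => simp [undo]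
  | cons c l => simp [undo]

lemma mult_zero_le (b : Bool) (l : List (Step (m + 2) × Bool)) : mult (0, b) l ≤ 2 := by
  unfold mult; split_ifs <;> norm_num

lemma key {w α z σ h0 h1 Λ W : ℝ} {x : ℤ} (hw0 : 0 ≤ w) (hα0 : 0 ≤ α)
    (hz : 0 < z) (h1p : 0 ≤ h1) (hW : 0 ≤ W)
    (hσ1 : (1 + α) * z = σ) (hσ2 : (1 - α) * z⁻¹ = σ)
    (hA : 2 * w * σ * h1 + 2 * (1 - w) * h0 ≤ Λ * h0)
    (hB : 3 / 2 * w * σ * h1 + 2 * (1 - w) * h0 ≤ Λ * h1)
    (l : List (Step (m + 2) × Bool)) :
    ∑ s : Step (m + 2), mult s l *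
      (stepProb (m + 2) w α s * W * z ^ (x + vec s 0) * hs h0 h1 s) ≤
      Λ * (W * z ^ x * hl h0 h1 l) := by
  rw [sum_step]
  have e1 : z ^ (x + vec ((0, true) : Step (m + 2)) 0) = z ^ x * z := by
    simp [vec, zpow_add₀ hz.ne']
  have e2 : z ^ (x + vec ((0, false) : Step (m + 2)) 0) = z ^ x * z⁻¹ := by
    simp [vec, zpow_add₀ hz.ne', zpow_neg]
  have e3 : ∀ (i : Fin (m + 1)) (b : Bool),
      z ^ (x + vec ((i.succ, b) : Step (m + 2)) 0) = z ^ x := by
    intro i b
    have : vec ((i.succ, b) : Step (m + 2)) 0 = 0 := by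
      simp only [vec]
      rw [Pi.single_apply, if_neg]
      exact (Fin.succ_ne_zero i).symm
    rw [this, add_zero]
  have f1 : hs h0 h1 ((0, true) : Step (m + 2)) = h1 := by simp [hs]
  have f2 : hs h0 h1 ((0, false) : Step (m + 2)) = h1 := by simp [hs]
  have f3 : ∀ (i : Fin (m + 1)) (b : Bool), hs h0 h1 ((i.succ, b) : Step (m + 2)) = h0 := by
    intro i b; simp [hs]
  simp only [e1, e2, e3, f1, f2, f3, mult_succ, stepProb_zero_true, stepProb_zero_false,
    stepProb_succ, Finset.sum_const, Finset.card_univ, Fintype.card_fin, nsmul_eq_mul]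
  set X := W * z ^ x with hX
  have hXp : 0 ≤ X := by positivity
  have hm : ((m : ℝ) + 1) ≠ 0 := by positivity
  have perp : (((m + 1 : ℕ)) : ℝ) * (2 * ((1 - w) / (2 * ((m : ℝ) + 1)) * W * z ^ x * h0) +
      2 * ((1 - w) / (2 * ((m : ℝ) + 1)) * W * z ^ x * h0)) = 2 * (1 - w) * h0 * X := by
    rw [hX]
    push_cast
    field_simp
    ring
  rw [perp]
  have g1 : w * (1 + α) / 2 * W * (z ^ x * z) * h1 = (w * σ / 2 * h1) * X := by
    rw [hX, ← hσ1]; ring
  have g2 : w * (1 - α) / 2 * W * (z ^ x * z⁻¹) * h1 = (w * σ / 2 * h1) * X := by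
    rw [hX, ← hσ2]; ring
  rw [g1, g2]
  have hσp : 0 ≤ σ := by rw [← hσ1]; positivity
  have hq : 0 ≤ (w * σ / 2 * h1) * X := by positivity
  have hrhs : Λ * (W * z ^ x * hl h0 h1 l) = (Λ * hl h0 h1 l) * X := by rw [hX]; ring
  rw [hrhs]
  -- it suffices to bound the coefficients
  have main : (mult (0, true) l + mult (0, false) l) * (w * σ / 2 * h1) + 2 * (1 - w) * h0 ≤
      Λ * hl h0 h1 l := by
    have hq' : 0 ≤ w * σ / 2 * h1 := by positivity
    cases l with
    | nil =>
      have h1' := mult_zero_le (m := m) true []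
      have h2' := mult_zero_le (m := m) false []
      simp only [hl]
      nlinarith
    | cons b l =>
      rcases b with ⟨⟨j, s⟩, fl⟩
      by_cases hj : (j : ℕ) = 0
      · have hj0 : j = 0 := Fin.ext hj
        subst hj0
        have hh : hl h0 h1 (((0, s), fl) :: l : List (Step (m + 2) × Bool)) = h1 := by
          simp [hl, hs]
        rw [hh]
        cases s with
        | true =>
          have h2' : mult ((0, false) : Step (m + 2)) (((0, true), fl) :: l) = 1 := by
            simp [mult, undo]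
          have h1' := mult_zero_le (m := m) true (((0, true), fl) :: l)
          rw [h2']
          nlinarith
        | false =>
          have h2' : mult ((0, true) : Step (m + 2)) (((0, false), fl) :: l) = 1 := by
            simp [mult, undo]
          have h1' := mult_zero_le (m := m) false (((0, false), fl) :: l)
          rw [h2']
          nlinarith
      · have hh : hl h0 h1 (((j, s), fl) :: l : List (Step (m + 2) × Bool)) = h0 := by
          simp only [hl, hs, if_neg hj]
        rw [hh]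
        have h1' := mult_zero_le (m := m) true (((j, s), fl) :: l)
        have h2' := mult_zero_le (m := m) false (((j, s), fl) :: l)
        nlinarith
  nlinarith

open Classical in
/-- the weighted indicator of admissible words -/
noncomputable def fw (w α z h0 h1 : ℝ) (l : List (Step (m + 2) × Bool)) : ℝ≥0∞ :=
  if good l then ENNReal.ofReal (wt w α l * z ^ ((st l).1 0) * hl h0 h1 l) else 0

lemma fw_contract {w α z σ h0 h1 Λ : ℝ} (hw0 : 0 ≤ w) (hw1 : w ≤ 1) (hα0 : 0 ≤ α) (hα1 : α ≤ 1)
    (hz : 0 < z) (h0p : 0 ≤ h0) (h1p : 0 ≤ h1) (hΛ : 0 ≤ Λ)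
    (hσ1 : (1 + α) * z = σ) (hσ2 : (1 - α) * z⁻¹ = σ)
    (hA : 2 * w * σ * h1 + 2 * (1 - w) * h0 ≤ Λ * h0)
    (hB : 3 / 2 * w * σ * h1 + 2 * (1 - w) * h0 ≤ Λ * h1)
    (l : List (Step (m + 2) × Bool)) :
    ∑ a : Step (m + 2) × Bool, fw w α z h0 h1 (a :: l) ≤ ENNReal.ofReal Λ * fw w α z h0 h1 l := by
  classical
  by_cases hg : good l
  · have hn := stepProb_nonneg m hw0 hw1 hα0 hα1
    have hterm : ∀ s : Step (m + 2),
        0 ≤ stepProb (m + 2) w α s * wt w α l * z ^ ((st l).1 0 + vec s 0) * hs h0 h1 s := by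
      intro s
      have e1 := hn s
      have e2 := wt_nonneg hn l
      have e3 : 0 ≤ hs h0 h1 s := by unfold hs; split_ifs <;> assumption
      positivity
    have hle : ∀ s : Step (m + 2), ∑ b : Bool, fw w α z h0 h1 ((s, b) :: l) ≤
        ENNReal.ofReal (mult s l *
          (stepProb (m + 2) w α s * wt w α l * z ^ ((st l).1 0 + vec s 0) * hs h0 h1 s)) := by
      intro s
      have hval : ∀ b : Bool, fw w α z h0 h1 ((s, b) :: l) ≤ ENNReal.ofReal
          (stepProb (m + 2) w α s * wt w α l * z ^ ((st l).1 0 + vec s 0) * hs h0 h1 s) := by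
        intro b
        unfold fw
        split_ifs
        · apply le_of_eq
          congr 1
          rw [st_fst_cons]
          simp [wt, hl]
        · exact bot_le
      rw [Fintype.sum_bool]
      by_cases hu : undo s l
      · have h0' : fw w α z h0 h1 ((s, true) :: l) = 0 := by
          unfold fw
          rw [if_neg]
          rintro ⟨-, h, -⟩
          exact h rfl hu
        rw [h0', zero_add]
        refine (hval false).trans (le_of_eq ?_)
        simp [mult, hu]
      · refine (add_le_add (hval true) (hval false)).trans (le_of_eq ?_)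
        rw [← ENNReal.ofReal_add (hterm s) (hterm s)]
        congr 1
        simp only [mult, hu, if_false]
        ring
    rw [Fintype.sum_prod_type]
    refine (Finset.sum_le_sum (fun s _ => hle s)).trans ?_
    rw [← ENNReal.ofReal_sum_of_nonneg
      (fun s _ => mul_nonneg (mult_nonneg s l) (hterm s))]
    simp only [fw, if_pos hg]
    rw [← ENNReal.ofReal_mul hΛ]
    apply ENNReal.ofReal_le_ofReal
    exact key hw0 hα0 hz h1p (wt_nonneg hn l) hσ1 hσ2 hA hB l
  · have : ∀ a : Step (m + 2) × Bool, fw w α z h0 h1 (a :: l) = 0 := by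
      intro a
      unfold fw
      rw [if_neg]
      rintro ⟨h, -⟩
      exact hg h
    simp [this]

lemma visit_le {w α z σ h0 h1 Λ : ℝ} (hw0 : 0 ≤ w) (hw1 : w ≤ 1) (hα0 : 0 ≤ α) (hα1 : α ≤ 1)
    (hz : 0 < z) (h0p : 1 ≤ h0) (h1p : 1 ≤ h1) (hΛ : 0 ≤ Λ)
    (hσ1 : (1 + α) * z = σ) (hσ2 : (1 - α) * z⁻¹ = σ)
    (hA : 2 * w * σ * h1 + 2 * (1 - w) * h0 ≤ Λ * h0)
    (hB : 3 / 2 * w * σ * h1 + 2 * (1 - w) * h0 ≤ Λ * h1) (n : ℕ) :
    frogLaw (m + 2) w α {ω | OriginVisited ω n} ≤
      ENNReal.ofReal Λ ^ n * ENNReal.ofReal h0 := by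
  have hn := stepProb_nonneg m hw0 hw1 hα0 hα1
  have hsub : {ω : Env (m + 2) | OriginVisited ω n} ⊆
      {ω | ∃ l, l.length = n ∧ ω ∈ {ω : Env (m + 2) | good l ∧ (st l).1 = 0 ∧ fol ω l}} := by
    intro ω hω
    obtain ⟨l, hl, h1, h2, h3⟩ := exists_word_of_visit ω n hω
    exact ⟨l, hl, h1, h3, h2⟩
  refine (measure_mono hsub).trans ((measure_union_words _ n _).trans ?_)
  have hle : ∀ l : List (Step (m + 2) × Bool),
      frogLaw (m + 2) w α {ω : Env (m + 2) | good l ∧ (st l).1 = 0 ∧ fol ω l} ≤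
        fw w α z h0 h1 l := by
    intro l
    by_cases hg : good l
    · by_cases hst : (st l).1 = 0
      · refine (measure_mono (t := {ω | fol ω l}) (fun ω hω => hω.2.2)).trans
          ((frogLaw_fol_le m hw0 hw1 hα0 hα1 hg).trans ?_)
        simp only [fw, if_pos hg]
        apply ENNReal.ofReal_le_ofReal
        rw [hst]
        simp only [Pi.zero_apply, zpow_zero, mul_one]
        have h2 : 1 ≤ hl h0 h1 l := by
          cases l with
          | nil => simpa [hl] using h0p
          | cons b l => simp only [hl, hs]; split_ifs <;> assumption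
        exact le_mul_of_one_le_right (wt_nonneg hn l) h2
      · have : {ω : Env (m + 2) | good l ∧ (st l).1 = 0 ∧ fol ω l} = ∅ := by
          ext ω; simp [hst]
        rw [this]; simp
    · have : {ω : Env (m + 2) | good l ∧ (st l).1 = 0 ∧ fol ω l} = ∅ := by
        ext ω; simp [hg]
      rw [this]; simp
  refine (S_mono n hle).trans ?_
  refine (S_contract (ENNReal.ofReal Λ) n (fun l => fw_contract hw0 hw1 hα0 hα1 hz
    (by linarith) (by linarith) hΛ hσ1 hσ2 hA hB l)).trans ?_
  gcongr
  simp [fw, good, wt, st, hl]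

lemma finite_visits {w α σ : ℝ} (hw0 : 0 < w) (hw1 : w ≤ 1) (hα0 : 0 < α) (hα1 : α < 1)
    (hσ : σ = Real.sqrt (1 - α ^ 2))
    (hcond : 3 * (w * σ / 2) + 2 * (1 - w) + 2 * (w * σ / 2) * (1 - w) < 1) :
    ∀ᵐ ω ∂(frogLaw (m + 2) w α), {n | OriginVisited ω n}.Finite := by
  have h1a : 0 < 1 - α ^ 2 := by nlinarith
  have hσp : 0 < σ := by rw [hσ]; exact Real.sqrt_pos.2 h1a
  have hσ2 : σ ^ 2 = 1 - α ^ 2 := by rw [hσ]; exact Real.sq_sqrt h1a.le
  set z : ℝ := σ / (1 + α) with hz
  have h1p : 0 < 1 + α := by linarith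
  have hzp : 0 < z := by positivity
  have e1 : (1 + α) * z = σ := by rw [hz]; field_simp
  have e2 : (1 - α) * z⁻¹ = σ := by
    rw [hz, inv_div, mul_div_assoc', div_eq_iff hσp.ne']
    nlinarith
  set s : ℝ := w * σ / 2 with hs'
  set c : ℝ := 1 - w with hc
  have hsp : 0 < s := by positivity
  have hc0 : 0 ≤ c := by rw [hc]; linarith
  have hc1 : 0 < 1 - 2 * c := by nlinarith [mul_nonneg hsp.le hc0]
  -- the ratio κ
  set D : ℝ := (1 - 3 * s) - 8 * s * c / (1 - 2 * c) with hD
  have hDp : 0 < D := by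
    rw [hD, sub_pos, div_lt_iff₀ hc1]
    nlinarith
  set κ : ℝ := 4 * s / (1 - 2 * c) + D / 2 with hκ
  have hκp : 0 < κ := by positivity
  have k1 : 4 * s + 2 * c * κ < κ := by
    have : 4 * s / (1 - 2 * c) < κ := by rw [hκ]; linarith
    rw [div_lt_iff₀ hc1] at this
    nlinarith
  have k2 : 3 * s + 2 * c * κ < 1 := by
    have h3 : 2 * c * κ = 8 * s * c / (1 - 2 * c) + c * D := by
      rw [hκ]; field_simp; ring
    have h4 : c * D < D := by
      have : c < 1 := by linarith
      nlinarith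
    rw [h3]
    have : 8 * s * c / (1 - 2 * c) = (1 - 3 * s) - D := by rw [hD]; ring
    rw [this]; linarith
  set Λ : ℝ := max ((4 * s + 2 * c * κ) / κ) (3 * s + 2 * c * κ) with hΛ
  have hΛ1 : Λ < 1 := by
    rw [hΛ, max_lt_iff]
    refine ⟨?_, k2⟩
    rw [div_lt_one hκp]; exact k1
  have hΛ0 : 0 ≤ Λ := le_trans (by positivity) (le_max_right _ _)
  set H : ℝ := 1 + 1 / κ with hH
  have hH1 : 1 ≤ H := by rw [hH]; have : 0 < 1 / κ := by positivity
                         linarith
  have hHκ : 1 ≤ H * κ := by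
    rw [hH]; have : (1 + 1 / κ) * κ = κ + 1 := by field_simp
    rw [this]; linarith
  have hA : 2 * w * σ * H + 2 * (1 - w) * (H * κ) ≤ Λ * (H * κ) := by
    have h5 : 4 * s + 2 * c * κ ≤ Λ * κ := by
      have := le_max_left ((4 * s + 2 * c * κ) / κ) (3 * s + 2 * c * κ)
      rw [← hΛ, div_le_iff₀ hκp] at this
      exact this
    have h6 : 2 * w * σ * H + 2 * (1 - w) * (H * κ) = H * (4 * s + 2 * c * κ) := by
      rw [hs', hc]; ring
    rw [h6]
    calc H * (4 * s + 2 * c * κ) ≤ H * (Λ * κ) := by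
          apply mul_le_mul_of_nonneg_left h5; linarith
      _ = Λ * (H * κ) := by ring
  have hB : 3 / 2 * w * σ * H + 2 * (1 - w) * (H * κ) ≤ Λ * H := by
    have h5 : 3 * s + 2 * c * κ ≤ Λ := le_max_right _ _
    have h6 : 3 / 2 * w * σ * H + 2 * (1 - w) * (H * κ) = H * (3 * s + 2 * c * κ) := by
      rw [hs', hc]; ring
    rw [h6]
    calc H * (3 * s + 2 * c * κ) ≤ H * Λ := by
          apply mul_le_mul_of_nonneg_left h5; linarith
      _ = Λ * H := by ring
  have hbound : ∀ n, frogLaw (m + 2) w α {ω | OriginVisited ω n} ≤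
      ENNReal.ofReal Λ ^ n * ENNReal.ofReal (H * κ) := fun n =>
    visit_le hw0.le hw1 hα0.le hα1.le hzp hHκ hH1 hΛ0 e1 e2 hA hB n
  have hsum : ∑' n, frogLaw (m + 2) w α {ω | OriginVisited ω n} ≠ ∞ := by
    refine ne_top_of_le_ne_top ?_ (ENNReal.tsum_le_tsum hbound)
    rw [ENNReal.tsum_mul_right]
    refine ENNReal.mul_ne_top ?_ ENNReal.ofReal_ne_top
    rw [ENNReal.tsum_geometric]
    refine ENNReal.inv_ne_top.2 ?_
    have : ENNReal.ofReal Λ < 1 := by
      rw [← ENNReal.ofReal_one]
      exact (ENNReal.ofReal_lt_ofReal_iff one_pos).2 hΛ1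
    exact (tsub_pos_of_lt this).ne'
  filter_upwards [ae_eventually_notMem hsum] with ω hω
  obtain ⟨N, hN⟩ := eventually_atTop.1 hω
  refine (Set.finite_lt_nat N).subset ?_
  intro n hn
  by_contra hlt
  exact hN n (by simpa using hlt) hn

end Bound

/-! ## The main theorem -/

lemma cond_mono {σ w w' : ℝ} (hσ0 : 0 < σ) (hσ : σ < 2 / 3) (hw : 0 < w) (hww : w ≤ w')
    (h : 3 * (w * σ / 2) + 2 * (1 - w) + 2 * (w * σ / 2) * (1 - w) < 1) :
    3 * (w' * σ / 2) + 2 * (1 - w') + 2 * (w' * σ / 2) * (1 - w') < 1 := by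
  nlinarith [mul_nonneg (sub_nonneg.2 hww) hσ0.le, mul_nonneg (sub_nonneg.2 hww) hw.le,
    mul_nonneg (mul_nonneg (sub_nonneg.2 hww) hw.le) hσ0.le,
    mul_nonneg (mul_nonneg (sub_nonneg.2 hww) (sub_nonneg.2 hww)) hσ0.le]

lemma g_eq {α : ℝ} (hα0 : 0 < α) : g α = min 1 (1 / (2 * (1 - Real.sqrt (1 - α ^ 2)))) := by
  unfold g; rw [if_neg hα0.ne']

lemma exists_w0 {α : ℝ} (hα0 : 0 < α) (hα1 : α < 1) (hσ : Real.sqrt (1 - α ^ 2) < 2 / 3) :
    ∃ w₀, 0 < w₀ ∧ w₀ < g α ∧
      3 * (w₀ * Real.sqrt (1 - α ^ 2) / 2) + 2 * (1 - w₀) +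
        2 * (w₀ * Real.sqrt (1 - α ^ 2) / 2) * (1 - w₀) < 1 := by
  have h1a : 0 < 1 - α ^ 2 := by nlinarith
  set σ := Real.sqrt (1 - α ^ 2) with hσd
  have hσp : 0 < σ := Real.sqrt_pos.2 h1a
  have hg : g α = min 1 (1 / (2 * (1 - σ))) := g_eq hα0
  have hgp : 0 < g α := by
    rw [hg]; apply lt_min one_pos
    have : 0 < 1 - σ := by linarith
    positivity
  -- the condition holds at `g α`
  have hat : 3 * (g α * σ / 2) + 2 * (1 - g α) + 2 * (g α * σ / 2) * (1 - g α) < 1 := by
    by_cases h : σ < 1 / 2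
    · have h1 : 0 < 1 - σ := by linarith
      have hge : g α = 1 / (2 * (1 - σ)) := by
        rw [hg]; apply min_eq_right
        rw [div_le_one (by positivity)]
        linarith
      have h2 : g α * (2 * (1 - σ)) = 1 := by rw [hge]; field_simp
      have h3 : 0 < g α * σ := by positivity
      nlinarith
    · have hge : g α = 1 := by
        rw [hg]; apply min_eq_left
        have h1 : 0 < 1 - σ := by linarith
        rw [le_div_iff₀ (by positivity)]
        linarith
      rw [hge]; nlinarith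
  -- continuity
  have hcont : ContinuousAt (fun w : ℝ => 3 * (w * σ / 2) + 2 * (1 - w) +
      2 * (w * σ / 2) * (1 - w)) (g α) := by
    apply Continuous.continuousAt; fun_prop
  have hev : ∀ᶠ w in 𝓝 (g α), 3 * (w * σ / 2) + 2 * (1 - w) + 2 * (w * σ / 2) * (1 - w) < 1 :=
    hcont.eventually_lt continuousAt_const hat
  have hev2 : ∀ᶠ w in 𝓝[<] (g α), 3 * (w * σ / 2) + 2 * (1 - w) +
      2 * (w * σ / 2) * (1 - w) < 1 := hev.filter_mono nhdsWithin_le_nhds
  have hev3 : ∀ᶠ w in 𝓝[<] (g α), w < g α := eventually_mem_nhdsWithin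
  have hev4 : ∀ᶠ w in 𝓝[<] (g α), 0 < w :=
    (lt_mem_nhds hgp).filter_mono nhdsWithin_le_nhds
  obtain ⟨w, h1, h2, h3⟩ := (hev2.and (hev3.and hev4)).exists
  exact ⟨w, h3, h2, h1⟩

/-- **Main theorem.**  For every `α ∈ (0,1)` with `√(1-α²) < 2/3` (that is `α > √5/3`; this
contains all `α` with `g(α) < 1`) there is `w₀ < g(α)`, independent of the dimension, such that
for every `d ≥ 2` and every `w ∈ [w₀, 1]` almost surely the origin is visited only finitely often
in `FM(d, π_{w,α})`.  Consequently, if a critical curve `f_d` exists for every `d ≥ 2`, then for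
each of these `α` the sequence `f_d(α)` does not converge to `g(α)`. -/
theorem result :
    (∀ α : ℝ, 0 < α → α < 1 → Real.sqrt (1 - α ^ 2) < 2 / 3 →
      ∃ w₀ : ℝ, 0 < w₀ ∧ w₀ < g α ∧ ∀ d : ℕ, 2 ≤ d → ∀ w : ℝ, w₀ ≤ w → w ≤ 1 →
        ∀ᵐ ω ∂(frogLaw d w α), {n | OriginVisited ω n}.Finite) ∧
    (∀ f : ℕ → ℝ → ℝ, (∀ d : ℕ, 2 ≤ d → IsCriticalCurve d (f d)) →
      ∀ α : ℝ, 0 < α → α < 1 → Real.sqrt (1 - α ^ 2) < 2 / 3 →
        ¬ Tendsto (fun d => f d α) atTop (𝓝 (g α))) := by
  have hfirst : ∀ α : ℝ, 0 < α → α < 1 → Real.sqrt (1 - α ^ 2) < 2 / 3 →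
      ∃ w₀ : ℝ, 0 < w₀ ∧ w₀ < g α ∧ ∀ d : ℕ, 2 ≤ d → ∀ w : ℝ, w₀ ≤ w → w ≤ 1 →
        ∀ᵐ ω ∂(frogLaw d w α), {n | OriginVisited ω n}.Finite := by
    intro α hα0 hα1 hσ
    have h1a : 0 < 1 - α ^ 2 := by nlinarith
    obtain ⟨w₀, h0, hg, hc⟩ := exists_w0 hα0 hα1 hσ
    refine ⟨w₀, h0, hg, ?_⟩
    intro d hd w hw hw1
    obtain ⟨m, rfl⟩ : ∃ m, d = m + 2 := ⟨d - 2, by omega⟩
    exact finite_visits (lt_of_lt_of_le h0 hw) hw1 hα0 hα1 rfl
      (cond_mono (Real.sqrt_pos.2 h1a) hσ h0 hw hc)
  refine ⟨hfirst, ?_⟩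
  intro f hf α hα0 hα1 hσ hlim
  obtain ⟨w₀, h0, hg, hw⟩ := hfirst α hα0 hα1 hσ
  have hαm : α ∈ Set.Icc (0 : ℝ) 1 := ⟨hα0.le, hα1.le⟩
  have hle : ∀ d : ℕ, 2 ≤ d → f d α ≤ w₀ := by
    intro d hd
    by_contra hlt
    push Not at hlt
    obtain ⟨hmem, -, hcrit⟩ := hf d hd
    have hf1 := (hmem α hαm).2
    set w := (w₀ + f d α) / 2 with hwdef
    have hww : w₀ ≤ w := by rw [hwdef]; linarith
    have hwf : w < f d α := by rw [hwdef]; linarith
    have hw1 : w ≤ 1 := by linarith
    have hrec := (hcrit w ⟨by linarith, hw1⟩ α hαm).1 hwf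
    have hfin := hw d hd w hww hw1
    obtain ⟨m, rfl⟩ : ∃ m, d = m + 2 := ⟨d - 2, by omega⟩
    have := stepLaw_prob m (by linarith : (0 : ℝ) ≤ w) hw1 hα0.le hα1.le
    have hprob : IsProbabilityMeasure (frogLaw (m + 2) w α) := by
      unfold frogLaw; infer_instance
    obtain ⟨ω, h1, h2⟩ := (hrec.and hfin).exists
    exact h1 h2
  have := le_of_tendsto hlim (eventually_atTop.2 ⟨2, hle⟩)
  linarith

end Pool.Agent.Results.MP_964988_pr.FrogCurveGap
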